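import Mathlib

set_option autoImplicit false
open Finset Topology

namespace Pool.Agent.Results.MP_64e474_co.Counter

/-- Homomorphisms from the rooted tree `T^d` (vertices: words, root: the empty word, the children
of `v` are the words `i :: v`). -/
def IsHom {V : Type} (G : SimpleGraph V) {d : ℕ} (φ : List (Fin d) → V) : Prop :=
  ∀ v i, G.Adj (φ v) (φ (i :: v))

def Cold {V : Type} (G : SimpleGraph V) {d : ℕ} (φ : List (Fin d) → V) : Prop :=
  ∃ a, ∀ k, 1 ≤ k → ¬ ∃ ψ : List (Fin d) → V,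
    IsHom G ψ ∧ (∀ v, v.length = k → ψ v = φ v) ∧ ψ [] = a

def Warm {V : Type} (G : SimpleGraph V) (d : ℕ) : Prop :=
  2 ≤ d ∧ ∀ φ : List (Fin (d - 2)) → V, IsHom G φ → ¬ Cold G φ

noncomputable def warmth {V : Type} (G : SimpleGraph V) : ℕ∞ := ⨆ (d : ℕ) (_ : Warm G d), (d : ℕ∞)

/-- Geometric realisation of the neighbourhood complex. -/
def nbhdComplex {V : Type} [Fintype V] (G : SimpleGraph V) : Set (V → ℝ) :=
  {x | x ∈ stdSimplex ℝ V ∧ ∃ y, ∀ v, x v ≠ 0 → G.Adj v y}

/-- `conn X + 1`. -/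
noncomputable def connSucc (X : Type) [TopologicalSpace X] : ℕ∞ :=
  ⨆ (n : ℕ) (_ : ∀ i < n, ∀ x : X, Subsingleton (π_ i X x)), (n : ℕ∞)

def H : SimpleGraph (Fin 16) where
  Adj u v := (u.val ^^^ v.val) ∈ [1, 2, 3, 7, 11, 12]
  symm := ⟨by decide⟩
  loopless := ⟨by decide⟩

instance : DecidableRel H.Adj := fun u v =>
  inferInstanceAs (Decidable ((u.val ^^^ v.val) ∈ [1, 2, 3, 7, 11, 12]))

def Nb (A : Finset (Fin 16)) : Finset (Fin 16) := {x | ∃ y ∈ A, H.Adj x y}

def N (u : Fin 16) : Finset (Fin 16) := {x | H.Adj x u}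

lemma sub {A : Finset (Fin 16)} {u : Fin 16} (h : u ∈ A) : N u ⊆ Nb A := fun x hx =>
  mem_filter.2 ⟨mem_univ _, u, h, (mem_filter.1 hx).2⟩

lemma h0 : ∀ x y : Fin 16, #(N x ∩ N y) ≠ 1 := by decide +kernel
lemma h1 : ∀ u : Fin 16, #(N u) = 6 := by decide +kernel
lemma h2 : ∀ u v : Fin 16, u ≠ v → #(N u ∩ N v) ≤ 2 := by decide +kernel

lemma f2 {A : Finset (Fin 16)} (h : 2 ≤ #A) : 10 ≤ #(Nb A) := by
  obtain ⟨u, hu, v, hv, e⟩ := one_lt_card.1 h
  have := card_le_card (union_subset (sub hu) (sub hv))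
  have := card_union_add_card_inter (N u) (N v)
  have := h1 u; have := h1 v; have := h2 u v e
  omega

lemma f3 {A : Finset (Fin 16)} (h : 3 ≤ #A) : 12 ≤ #(Nb A) := by
  obtain ⟨u, hu, v, hv, w, hw, e1, e2, e3⟩ := two_lt_card.1 h
  have := card_le_card (union_subset (union_subset (sub hu) (sub hv)) (sub hw))
  have := card_union_add_card_inter (N u) (N v)
  have := card_union_add_card_inter (N u ∪ N v) (N w)
  rw [union_inter_distrib_right] at this
  have := card_union_le (N u ∩ N w) (N v ∩ N w)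
  have := h1 u; have := h1 v; have := h1 w
  have := h2 u v e1; have := h2 u w e2; have := h2 v w e3
  omega

lemma dual (A : Finset (Fin 16)) : #(Nb (Nb A)ᶜ) + #A ≤ 16 := by
  rw [← card_union_of_disjoint]
  · exact card_le_univ _
  · refine disjoint_left.2 fun x hx hA => ?_
    simp only [Nb, mem_filter, mem_univ, true_and, mem_compl, not_exists, not_and] at hx
    obtain ⟨y, h1, h2⟩ := hx
    exact h1 x hA h2.symm

lemma f7 {A : Finset (Fin 16)} (h : 7 ≤ #A) : 15 ≤ #(Nb A) := by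
  have := dual A
  have c := card_compl (Nb A)
  by_contra hc
  have := f2 (A := (Nb A)ᶜ) (by simp only [Fintype.card_fin] at c; omega)
  omega

lemma f11 {A : Finset (Fin 16)} (h : 11 ≤ #A) (x : Fin 16) : x ∈ Nb A := by
  have := dual A
  by_contra hc
  have := card_le_card (sub (mem_compl.2 hc))
  have := h1 x
  omega

def S (φ : List (Fin 2) → Fin 16) : ℕ → List (Fin 2) → Finset (Fin 16)
  | 0, v => {φ v}
  | k + 1, v => Nb (S φ k (0 :: v)) ∩ Nb (S φ k (1 :: v))

lemma inter (A B : Finset (Fin 16)) : #A + #B ≤ #(A ∩ B) + 16 := by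
  have := card_union_add_card_inter A B
  have := card_le_univ (A ∪ B)
  simp only [Fintype.card_fin] at this
  omega

lemma build {d : ℕ} (P : List (Fin d) → Fin 16 → Prop)
    (h : ∀ v x, P v x → ∀ i, ∃ y, H.Adj x y ∧ P (i :: v) y) (a : Fin 16) (ha : P [] a) :
    ∃ ψ : List (Fin d) → Fin 16, IsHom H ψ ∧ (∀ v, P v (ψ v)) ∧ ψ [] = a := by
  choose c hc using h
  let ψ : ∀ v, {x // P v x} := fun v => List.rec ⟨a, ha⟩ (fun i v x => ⟨c v x.1 x.2 i, (hc ..).2⟩) v
  exact ⟨fun v => (ψ v).1, fun v i => (hc v _ (ψ v).2 i).1, fun v => (ψ v).2, rfl⟩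

lemma warm : Warm H 4 := by
  refine ⟨by norm_num, fun (φ : List (Fin 2) → Fin 16) hφ ⟨a, ha⟩ => ha 5 (by norm_num) ?_⟩
  have s1 : ∀ v, 2 ≤ #(S φ 1 v) := fun v => by
    have := card_le_card (inter_subset_inter (sub (mem_singleton_self (φ (0 :: v))))
      (sub (mem_singleton_self (φ (1 :: v)))))
    have := h0 (φ (0 :: v)) (φ (1 :: v))
    have : 0 < #(N (φ (0 :: v)) ∩ N (φ (1 :: v))) := card_pos.2 ⟨φ v, mem_inter.2
      ⟨mem_filter.2 ⟨mem_univ _, hφ v 0⟩, mem_filter.2 ⟨mem_univ _, hφ v 1⟩⟩⟩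
    show 2 ≤ #(Nb {φ (0 :: v)} ∩ Nb {φ (1 :: v)})
    omega
  have s2 : ∀ v, 3 ≤ #(S φ 2 v) := fun v => by
    have := inter (Nb (S φ 1 (0 :: v))) (Nb (S φ 1 (1 :: v)))
    have := f2 (s1 (0 :: v)); have := f2 (s1 (1 :: v))
    rw [S]; omega
  have s3 : ∀ v, 7 ≤ #(S φ 3 v) := fun v => by
    have := inter (Nb (S φ 2 (0 :: v))) (Nb (S φ 2 (1 :: v)))
    have := f3 (s2 (0 :: v)); have := f3 (s2 (1 :: v))
    rw [S]; omega
  have s4 : ∀ v, 11 ≤ #(S φ 4 v) := fun v => by
    have := inter (Nb (S φ 3 (0 :: v))) (Nb (S φ 3 (1 :: v)))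
    have := f7 (s3 (0 :: v)); have := f7 (s3 (1 :: v))
    rw [S]; omega
  obtain ⟨ψ, k1, k2, k3⟩ := build (fun v x => x ∈ S φ (5 - v.length) v) (fun v x hx i => by
    rcases Nat.lt_or_ge v.length 5 with hl | hl
    · obtain ⟨m, hm⟩ : ∃ m, 5 - v.length = m + 1 := ⟨4 - v.length, by omega⟩
      have e : 5 - (i :: v).length = m := by simp only [List.length_cons]; omega
      rw [hm] at hx
      rw [e]
      have : x ∈ Nb (S φ m (i :: v)) := by
        fin_cases i
        exacts [(mem_inter.1 hx).1, (mem_inter.1 hx).2]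
      obtain ⟨y, h1, h2⟩ := (mem_filter.1 this).2
      exact ⟨y, h2, h1⟩
    · have e : 5 - (i :: v).length = 0 := by simp only [List.length_cons]; omega
      rw [Nat.sub_eq_zero_of_le hl] at hx
      rw [e, mem_singleton.1 hx]
      exact ⟨_, hφ v i, mem_singleton_self _⟩) a
    (mem_inter.2 ⟨f11 (s4 _) _, f11 (s4 _) _⟩)
  refine ⟨ψ, k1, fun v hv => ?_, k3⟩
  have := k2 v
  rw [hv] at this
  exact mem_singleton.1 this

def sg (u v : Fin 16) : ℤ := if (u.val ^^^ v.val) ∈ [7, 11, 13, 14, 15] then -1 else 1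

def s (y v : Fin 16) : ℤ := if (y.val ^^^ v.val) = 12 then -1 else 1

lemma hs : ∀ y u v : Fin 16, H.Adj u y → H.Adj v y → s y u * s y v = sg u v := by decide +kernel
lemma hs2 : ∀ y u : Fin 16, s y u * s y u = 1 := by decide +kernel
lemma hsg : ∀ y u : Fin 16, sg y u = 1 ∨ sg y u = -1 := by decide +kernel

def E : SubMulAction ℤˣ (Fin 16 → ℝ) where
  carrier := {z | |z| ∈ nbhdComplex H ∧ ∀ u v, 0 ≤ z u * z v * sg u v}
  smul_mem' := by
    rintro g z ⟨h1, h2⟩
    rcases Int.units_eq_one_or g with rfl | rfl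
    · simpa using ⟨h1, h2⟩
    · simpa using ⟨h1, h2⟩

def p (z : E) : nbhdComplex H := ⟨|z.1|, z.2.1⟩

lemma closedN : IsClosed (nbhdComplex H) := by
  have : nbhdComplex H = stdSimplex ℝ _ ∩ ⋃ y, ⋂ v, ⋂ (_ : ¬ H.Adj v y), {x | x v = 0} := by
    ext x
    simp only [nbhdComplex, Set.mem_setOf_eq, Set.mem_inter_iff, Set.mem_iUnion, Set.mem_iInter,
      ne_eq, not_imp_comm]
  rw [this]
  exact (isClosed_stdSimplex ..).inter (isClosed_iUnion_of_finite fun y => isClosed_iInter fun v =>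
    isClosed_iInter fun _ => isClosed_eq (continuous_apply v) continuous_const)

lemma cabs : Continuous fun z : Fin 16 → ℝ => |z| :=
  continuous_pi fun v => (continuous_apply v).abs

instance : CompactSpace E := by
  refine isCompact_iff_compactSpace.1 ((isCompact_Icc (a := -1) (b := 1)).of_isClosed_subset ?_ ?_)
  · have : (E : Set (Fin 16 → ℝ)) = abs ⁻¹' nbhdComplex H ∩ ⋂ u, ⋂ v,
        {z | 0 ≤ z u * z v * sg u v} := by
      ext z
      simp only [Set.mem_inter_iff, Set.mem_iInter]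
      rfl
    rw [this]
    exact (closedN.preimage cabs).inter (isClosed_iInter fun u => isClosed_iInter fun v =>
      isClosed_le continuous_const (by fun_prop))
  · intro z hz
    have := fun v => abs_le.1 ((stdSimplex_subset_Icc ℝ hz.1.1).2 v)
    exact ⟨fun v => (this v).1, fun v => (this v).2⟩

lemma nz (z : E) : ∃ u, z.1 u ≠ 0 := by
  by_contra h
  push Not at h
  have := z.2.1.1.2
  simp [h] at this

lemma lift {x : Fin 16 → ℝ} (hx : x ∈ stdSimplex ℝ _) {y : Fin 16} (hy : ∀ v, x v ≠ 0 → H.Adj v y) :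
    (fun v => x v * s y v) ∈ E ∧ |fun v => x v * s y v| = x := by
  have a : |fun v => x v * s y v| = x := by
    funext v
    have : |(s y v : ℝ)| = 1 := by
      unfold s
      split_ifs <;> simp
    simp only [Pi.abs_apply, abs_mul, this, mul_one, abs_of_nonneg (hx.1 v)]
  refine ⟨⟨by rw [a]; exact ⟨hx, y, hy⟩, fun u v => ?_⟩, a⟩
  by_cases hu : x u = 0
  · simp [hu]
  by_cases hv : x v = 0
  · simp [hv]
  have e1 : (s y u : ℝ) * s y u = 1 := by exact_mod_cast hs2 y u
  have e2 : (s y v : ℝ) * s y v = 1 := by exact_mod_cast hs2 y v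
  have e3 : (s y u : ℝ) * s y v = sg u v := by exact_mod_cast hs y u v (hy u hu) (hy v hv)
  have : x u * s y u * (x v * s y v) * sg u v = x u * x v * ((s y u * s y u) * (s y v * s y v)) := by
    rw [← e3]; ring
  rw [this, e1, e2]
  have := mul_nonneg (hx.1 u) (hx.1 v)
  linarith

lemma surj : Function.Surjective p := fun ⟨_, hx, _, hy⟩ =>
  ⟨⟨_, (lift hx hy).1⟩, Subtype.ext (lift hx hy).2⟩

lemma same (z w : E) (h : p z = p w) (u : Fin 16) (hu : z.1 u ≠ 0) (e : z.1 u = w.1 u) : z = w := by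
  refine Subtype.ext (funext fun v => ?_)
  have a : |z.1 v| = |w.1 v| := congrFun (congrArg Subtype.val h) v
  rcases abs_eq_abs.1 a with b | b
  · exact b
  have c1 := z.2.2 u v
  have c2 := w.2.2 u v
  rw [← e] at c2
  rw [b] at c1 ⊢
  have : z.1 u * w.1 v * sg u v = 0 := by linarith
  rcases hsg u v with d | d <;> simp [d, hu] at this <;> simp [this]

lemma pneg (z : E) : p ((-1 : ℤˣ) • z) = p z := Subtype.ext (by simp [p])

lemma cov : IsCoveringMap p := by
  have hc : Continuous p := (cabs.comp continuous_subtype_val).subtype_mk _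
  have : ContinuousConstSMul ℤˣ E := ⟨fun g =>
    ((continuous_const_smul g).comp continuous_subtype_val).subtype_mk _⟩
  have : IsCancelSMul ℤˣ E := isCancelSMul_iff_eq_one_of_smul_eq.2 fun g z h => by
    rcases Int.units_eq_one_or g with rfl | rfl
    · rfl
    obtain ⟨u, hu⟩ := nz z
    have := congrFun (congrArg Subtype.val h) u
    simp at this
    exact absurd (by linarith) hu
  refine ((hc.isClosedMap.isQuotientMap hc surj).isQuotientCoveringMap_of_properlyDiscontinuousSMul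
    (G := ℤˣ) fun {z w} => ⟨fun h => ?_, ?_⟩).isCoveringMap
  · obtain ⟨u, hu⟩ := nz z
    have a : |z.1 u| = |w.1 u| := congrFun (congrArg Subtype.val h) u
    rcases abs_eq_abs.1 a with b | b
    · exact ⟨1, (one_smul _ _).trans (same z w h u hu b).symm⟩
    · exact ⟨-1, (same z _ (h.trans (pneg w).symm) u hu (by simpa using b)).symm⟩
  · rintro ⟨g, rfl⟩
    rcases Int.units_eq_one_or g with rfl | rfl
    · simp
    · exact pneg w

lemma seg (y a b : Fin 16) (ha : H.Adj a y) (hb : H.Adj b y) (hab : a ≠ b) :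
    JoinedIn (E : Set (Fin 16 → ℝ)) (Pi.single a (s y a : ℝ)) (Pi.single b (s y b : ℝ)) := by
  refine JoinedIn.of_segment_subset ?_
  rintro _ ⟨t, r, ht, hr, htr, rfl⟩
  have hx := (lift (x := Pi.single a t + Pi.single b r) (y := y)
    ⟨(add_nonneg (Pi.single_nonneg.2 ht) (Pi.single_nonneg.2 hr) :
      (0 : Fin 16 → ℝ) ≤ Pi.single a t + Pi.single b r), by
      simp [sum_add_distrib, htr]⟩ fun v hv => by
    by_cases e1 : v = a
    · rwa [e1]
    by_cases e2 : v = b
    · rwa [e2]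
    simp [e1, e2] at hv).1
  refine Set.mem_of_eq_of_mem (funext fun v => ?_) hx
  by_cases e1 : v = a
  · simp [e1, hab]
  by_cases e2 : v = b
  · simp [e2, hab.symm]
  simp [e1, e2]

lemma joined : JoinedIn (E : Set (Fin 16 → ℝ)) (Pi.single 0 1) (Pi.single 0 (-1)) := by
  have a := seg 1 0 3 (by decide) (by decide) (by decide)
  have b := seg 4 3 7 (by decide) (by decide) (by decide)
  have c := seg 12 7 0 (by decide) (by decide) (by decide)
  rw [show s 1 0 = 1 by decide, show s 1 3 = 1 by decide] at a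
  rw [show s 4 3 = 1 by decide, show s 4 7 = 1 by decide] at b
  rw [show s 12 7 = 1 by decide, show s 12 0 = -1 by decide] at c
  simpa using (a.trans b).trans c

lemma nontriv : ∃ x : nbhdComplex H, ¬ Subsingleton (π_ 1 (nbhdComplex H) x) := by
  obtain ⟨γ⟩ := joined.joined_subtype
  set z : E := ⟨Pi.single 0 1, joined.source_mem⟩
  set w : E := ⟨Pi.single 0 (-1), joined.target_mem⟩
  have e : p z = p w := Subtype.ext (funext fun v => by
    by_cases h : v = 0 <;> simp [p, z, w, h])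
  refine ⟨p z, fun h => ?_⟩
  have h' : Subsingleton (Path.Homotopic.Quotient (p z) (p z)) :=
    HomotopyGroup.pi1EquivFundamentalGroup.subsingleton_congr.1 h
  have k := cov.monodromy_eq_of_map_eq (x := p z) (y := p z) (γ := .refl _) (ex := ⟨z, rfl⟩)
    (ey := ⟨w, e.symm⟩) (.mk γ) (by
      have : Subsingleton (Path.Homotopic.Quotient (p z) (p w)) := e ▸ h'
      exact this.elim _ _)
  rw [cov.monodromy_refl] at k
  have := congrFun (congrArg (fun t => t.1.1) k) 0
  simp [z, w] at this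
  linarith

theorem result : ¬ ∀ (n : ℕ) (G : SimpleGraph (Fin n)), G ≠ ⊥ →
    warmth G ≤ connSucc (nbhdComplex G) + 2 := by
  intro h
  have h1 := h 16 H fun e => by
    have : H.Adj 0 1 := by decide
    simp [e] at this
  have h2 : (4 : ℕ∞) ≤ warmth H := le_iSup₂_of_le (f := fun (d : ℕ) (_ : Warm H d) => (d : ℕ∞)) 4 warm le_rfl
  have h3 : connSucc (nbhdComplex H) ≤ 1 := iSup₂_le fun n hn => by
    obtain ⟨x, hx⟩ := nontriv
    by_contra hc
    exact hx (hn 1 (by simpa using hc) x)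
  have := h2.trans (h1.trans (add_le_add_left h3 2))
  norm_num at this

end Pool.Agent.Results.MP_64e474_co.Counter
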